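import Pool.Agent.Lib.MP_58cb87_lc.Exponent

/-!
Existence of the decay exponent of the revealment of the iterated three-bit majority.
-/

namespace Pool.Agent.Results.MP_58cb87_lc.ExponentExists

open Pool.Agent.MP_58cb87_lc Filter Topology

/-- The decay exponent of the revealment of the iterated majority exists as a limit, and equals
the supremum of the finite-level exponents. -/
theorem result : ∃ e : ℝ,
    Tendsto (fun k : ℕ => -Real.log (revealment (iterMaj k)) / Real.log (3 ^ k)) atTop (𝓝 e) ∧
    IsLUB ((fun k : ℕ => -Real.log (revealment (iterMaj k)) / Real.log (3 ^ k)) '' Set.Ici 1) e :=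
  ⟨expo, tendsto_expo, isLUB_expo⟩

end Pool.Agent.Results.MP_58cb87_lc.ExponentExists
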